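import Pool.Agent.Helper81.UR2.Goals

/-!
# The sizes of the codes of the states (packet UV-SIZ, project UR2)
-/

set_option autoImplicit false

namespace Pool.Agent.Helper66.UR2

open Pool.Agent.Helper65.LinSpace Pool.Agent.Helper78.Mpc Finset
open Pool.Agent.Helper81.RP (wd num_wd length_wd length_wd_le pair_lt)
open Pool.Agent.Helper53.UV (CM)
open Pool.Agent.Helper81.UR2

/-- The size of the code of a list. -/
theorem cdl_lt {E : ℕ} (l : List ℕ) (h : ∀ a ∈ l, a < 2 ^ E) :
    cdl l < 2 ^ (2 ^ l.length * E) := by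
  induction l with
  | nil =>
    show 0 < _
    exact Nat.two_pow_pos _
  | cons a l ih =>
    show Nat.pair a (cdl l) < _
    have h1 := ih fun b hb => h b (List.mem_cons_of_mem _ hb)
    have h2 : a < 2 ^ (2 ^ l.length * E) := by
      refine (h a List.mem_cons_self).trans_le (Nat.pow_le_pow_right (by norm_num) ?_)
      exact Nat.le_mul_of_pos_left _ (Nat.two_pow_pos _)
    have h3 := pair_lt h2 h1
    have e : 2 ^ (a :: l).length * E = 2 * (2 ^ l.length * E) := by
      rw [List.length_cons, pow_succ]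
      ring
    rw [e]
    exact h3

section

variable (s h k D o o' : ℕ)

/-- The exponent. -/
def ex : ℕ := D * (h + 4) + 2 * s + k + 4

theorem par_lt (hD : 0 < D) (hDs : D < 2 ^ s) (ho : o < 2 ^ s) (ho' : o' < 2 ^ s) :
    par s h k D o o' < 2 ^ (256 * ex s h k D) := by
  have hh : h + 4 ≤ D * (h + 4) := Nat.le_mul_of_pos_left _ hD
  have hp : ∀ a, a < ex s h k D → 2 ^ a < 2 ^ ex s h k D := fun a ha =>
    Nat.pow_lt_pow_right (by norm_num) ha
  have hs : s < ex s h k D := by
    unfold ex
    omega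
  have hs1 := hp s hs
  have h1 := cdl_lt (E := ex s h k D)
    [2 ^ (2 * s + 2), 2 ^ s, 2 ^ h, D, o, o', 2 ^ k, 2 ^ (D * (h + 4))] (by
      intro a ha
      simp only [List.mem_cons, List.not_mem_nil, or_false] at ha
      rcases ha with ha | ha | ha | ha | ha | ha | ha | ha
      · rw [ha]
        exact hp _ (by unfold ex; omega)
      · rw [ha]
        exact hs1
      · rw [ha]
        exact hp _ (by unfold ex; omega)
      · rw [ha]
        exact hDs.trans hs1
      · rw [ha]
        exact ho.trans hs1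
      · rw [ha]
        exact ho'.trans hs1
      · rw [ha]
        exact hp _ (by unfold ex; omega)
      · rw [ha]
        exact hp _ (by unfold ex; omega))
  have e : 2 ^ [2 ^ (2 * s + 2), 2 ^ s, 2 ^ h, D, o, o', 2 ^ k, 2 ^ (D * (h + 4))].length = 256 := by
    simp only [List.length_cons, List.length_nil]
    norm_num
  rw [e] at h1
  exact h1

theorem par_pos : 0 < par s h k D o o' := by
  have h1 : 2 ^ (2 * s + 2) ≤ par s h k D o o' := Nat.left_le_pair _ _
  exact (Nat.two_pow_pos _).trans_le h1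

theorem okP_par (hD : 0 < D) : okP (par s h k D o o') ≠ 0 := by
  rw [okP_iff]
  unfold par
  rw [pbs_prm, pQ_prm, pD_prm, pR_prm]
  refine ⟨Nat.two_pow_pos _, Nat.two_pow_pos _, hD, ?_, ?_⟩
  · rw [← pow_mul]
    refine Nat.pow_le_pow_right (by norm_num) ?_
    rw [mul_comm]
    exact Nat.mul_le_mul_left _ (by omega)
  · have e : (16 : ℕ) = 2 ^ 4 := by norm_num
    rw [e, ← pow_mul]
    refine Nat.pow_le_pow_right (by norm_num) ?_
    rw [mul_comm]
    exact Nat.mul_le_mul_left _ (by omega)

theorem ex_le (hD : 0 < D) : ex s h k D ≤ 8 * (D * (h + 1) + s + k) := by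
  have h1 : D * (h + 4) = D * (h + 1) + 3 * D := by ring
  have h2 : D * (h + 1) = D * h + D := by ring
  unfold ex
  rw [h1, h2]
  omega

theorem big_lt (hD : 0 < D) (hDs : D < 2 ^ s) (ho : o < 2 ^ s) (ho' : o' < 2 ^ s)
    {φ n ω i W : ℕ} (hφ : φ ≤ 1) (hn : n < 2 ^ s) (hω : ω < 2 ^ s) (hi : i ≤ D) (hW : W < 16 ^ D) :
    big (par s h k D o o') φ n ω i W < 2 ^ (16384 * ex s h k D + 1) := by
  have h0 := par_lt s h k D o o' hD hDs ho ho'
  have hh : h + 4 ≤ D * (h + 4) := Nat.le_mul_of_pos_left _ hD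
  have hD4 : 4 * D ≤ D * (h + 4) := by
    rw [mul_comm]
    exact Nat.mul_le_mul_left _ (by omega)
  have hp : ∀ a, a ≤ 256 * ex s h k D → 2 ^ a ≤ 2 ^ (256 * ex s h k D) := fun a ha =>
    Nat.pow_le_pow_right (by norm_num) ha
  have hs1 := hp s (by unfold ex; omega)
  have h1 := cdl_lt (E := 256 * ex s h k D) [par s h k D o o', φ, n, ω, i, W] (by
      intro a ha
      simp only [List.mem_cons, List.not_mem_nil, or_false] at ha
      rcases ha with ha | ha | ha | ha | ha | ha
      · rw [ha]
        exact h0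
      · rw [ha]
        refine lt_of_lt_of_le (b := 2 ^ 1) (by omega) (hp 1 (by unfold ex; omega))
      · rw [ha]
        exact hn.trans_le hs1
      · rw [ha]
        exact hω.trans_le hs1
      · rw [ha]
        exact (hi.trans_lt hDs).trans_le hs1
      · rw [ha]
        refine hW.trans_le ?_
        have e : (16 : ℕ) = 2 ^ 4 := by norm_num
        rw [e, ← pow_mul]
        exact hp _ (by unfold ex; omega))
  have e : 2 ^ [par s h k D o o', φ, n, ω, i, W].length = 64 := by
    simp only [List.length_cons, List.length_nil]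
    norm_num
  rw [e] at h1
  have e2 : 64 * (256 * ex s h k D) = 16384 * ex s h k D := by ring
  rw [e2] at h1
  unfold big
  have h2 := Nat.two_pow_pos (16384 * ex s h k D)
  rw [pow_succ]
  omega

end

/-- The number of a concatenation, divided. -/
theorem stt_aux {s S B b : ℕ} (hS : 2 ^ (2 * s + 2) ≤ S) (hS' : S < 2 ^ (2 * s + 3)) (hB : 0 < B)
    (hb : b ≤ 1) :
    (b + 2 * catN (sdN S) B) / 2 ^ (4 * s + 6) = B ∧
      b + 2 * catN (sdN S) B < 2 ^ (4 * s + 6) * (B + 1) := by
  have hSp : 0 < S := (Nat.two_pow_pos _).trans_le hS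
  obtain ⟨w, hw⟩ : ∃ w, num w = S := ⟨wd S, num_wd hSp⟩
  obtain ⟨v, hv⟩ : ∃ v, num v = B := ⟨wd B, num_wd hB⟩
  have hl : w.length = 2 * s + 2 := by
    have h1 := log_num w
    rw [← h1, hw]
    rw [Nat.log_eq_iff (Or.inr ⟨by norm_num, hSp.ne'⟩)]
    exact ⟨hS, hS'⟩
  rw [← hw, ← hv, sdN_num, catN_num, hv]
  have h1 := num_append (sd w) v
  have h2 : (sd w).length = 4 * s + 5 := by
    rw [length_sd, hl]
    ring
  have h3 : 2 ^ (sd w).length ≤ num (sd w) := by
    have := Nat.pow_log_le_self 2 (num_pos (sd w)).ne'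
    rwa [log_num] at this
  have h4 : num (sd w) < 2 ^ ((sd w).length + 1) := by
    have := Nat.lt_pow_succ_log_self (b := 2) (by norm_num) (num (sd w))
    rwa [log_num] at this
  rw [h2] at h1 h3 h4
  rw [hv] at h1
  have e1 : 2 ^ (4 * s + 5 + 1) = 2 ^ (4 * s + 5) * 2 := pow_succ _ _
  have e2 : 2 ^ (4 * s + 6) = 2 ^ (4 * s + 5) * 2 := pow_succ _ _
  rw [e1] at h4
  rw [e2]
  generalize 2 ^ (4 * s + 5) = P at h1 h3 h4 ⊢
  generalize num (sd w) = q at h1 h3 h4 ⊢
  generalize num (sd w ++ v) = r at h1 ⊢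
  have h5 : b + 2 * r = (b + 2 * (q - P)) + P * 2 * B := by
    have e3 : P * 2 * B = 2 * (P * B) := by ring
    omega
  have h6 : b + 2 * (q - P) < P * 2 := by omega
  have hP : 0 < P * 2 := by omega
  rw [h5]
  refine ⟨?_, ?_⟩
  · rw [Nat.add_mul_div_left _ _ hP, Nat.div_eq_of_lt h6, zero_add]
  · rw [mul_add, mul_one]
    omega

theorem gSIZ : GoalSIZ := by
  refine ⟨2 ^ 18, fun M s h k D o o' hD hDs ho ho' => ⟨okP_par s h k D o o' hD, ?_, ?_⟩⟩
  · have h1 := par_lt s h k D o o' hD hDs ho ho'
    have h2 := ex_le s h k D hD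
    have h3 : (wd (par s h k D o o')).length ≤ 256 * ex s h k D :=
      length_wd_le (par_pos s h k D o o')
        (h1.trans (Nat.pow_lt_pow_right (by norm_num) (Nat.lt_succ_self _)))
    have e : (2 : ℕ) ^ 18 = 262144 := by norm_num
    rw [e]
    omega
  · intro φ n ω i W e κ hφ hn hω hi hW he hκ
    have h1 := big_lt s h k D o o' hD hDs ho ho' hφ hn hω hi hW
    have h2 := ex_le s h k D hD
    have hB : 0 < big (par s h k D o o') φ n ω i W := by
      unfold big
      omega
    have hpb : pbs (par s h k D o o') = 2 ^ (2 * s + 2) := by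
      unfold par
      rw [pbs_prm]
    have hps : Nat.pair e κ < 2 ^ (2 * (s + 1)) := by
      have h3 := Nat.two_pow_pos s
      refine pair_lt ?_ ?_
      · rw [pow_succ]
        omega
      · rw [pow_succ]
        omega
    have hS : 2 ^ (2 * s + 2) ≤ sma (par s h k D o o') e κ := by
      unfold sma
      rw [hpb]
      exact Nat.le_add_right _ _
    have hS' : sma (par s h k D o o') e κ < 2 ^ (2 * s + 3) := by
      unfold sma
      rw [hpb]
      have e1 : 2 * (s + 1) = 2 * s + 2 := by ring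
      rw [e1] at hps
      have e2 : 2 ^ (2 * s + 3) = 2 ^ (2 * s + 2) * 2 := pow_succ _ _
      rw [e2]
      omega
    have hb : ifz φ 0 (ifz (M.acc κ) 0 1) ≤ 1 := by
      rcases Nat.eq_zero_or_pos φ with h3 | h3
      · rw [h3, ifz_zero]
        exact Nat.zero_le _
      · rw [ifz_ne h3.ne']
        rcases Nat.eq_zero_or_pos (M.acc κ) with h4 | h4
        · rw [h4, ifz_zero]
          exact Nat.zero_le _
        · rw [ifz_ne h4.ne']
    have h3 := stt_aux hS hS' hB hb
    have h5 : 0 < stt M (par s h k D o o') φ n ω i W e κ := by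
      rcases Nat.eq_zero_or_pos (stt M (par s h k D o o') φ n ω i W e κ) with h6 | h6
      · have h7 : stt M (par s h k D o o') φ n ω i W e κ / 2 ^ (4 * s + 6) =
          big (par s h k D o o') φ n ω i W := h3.1
        rw [h6, Nat.zero_div] at h7
        omega
      · exact h6
    refine ⟨?_, ?_⟩
    · have h6 : stt M (par s h k D o o') φ n ω i W e κ <
          2 ^ ((4 * s + 6 + (16384 * ex s h k D + 1)) + 1) := by
        refine (show stt M (par s h k D o o') φ n ω i W e κ <
          2 ^ (4 * s + 6) * (big (par s h k D o o') φ n ω i W + 1) from h3.2).trans_le ?_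
        have e1 : 2 ^ ((4 * s + 6 + (16384 * ex s h k D + 1)) + 1) =
            2 ^ (4 * s + 6) * (2 ^ (16384 * ex s h k D + 1) * 2) := by
          rw [pow_succ, pow_add, mul_assoc]
        rw [e1]
        refine Nat.mul_le_mul_left _ ?_
        omega
      have h7 := length_wd_le h5 h6
      have e : (2 : ℕ) ^ 18 = 262144 := by norm_num
      rw [e]
      have h8 : D * (h + 1) = D * h + D := by ring
      rw [h8] at h2 ⊢
      omega
    · rw [num_wd h5]
      exact h3.1

end Pool.Agent.Helper66.UR2
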